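import Pool.Agent.U222.CR.Main

/-!
# From the public definitions to the theorems
-/

set_option autoImplicit false

open Finset TensorProduct

namespace Pool.Agent.U222.CR

open Pool.Agent.U222.SL Pool.Agent.N876.FL
open Pool.Agent.U222.CR.Pub (productOf fixedField complexified)

variable {K 𝒱 : Type} {H : 𝒱 → Type} [Field K] [Mul 𝒱] [∀ X, AddCommGroup (H X)]
  [∀ X, Module K (H X)] [∀ X, FiniteDimensional K (H X)]

/-- the bundled form -/
def toInt (T : Pub.Crystals K H) : Crystals K 𝒱 where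
  H := H
  F := T.F
  Fr := T.Fr
  kunneth := T.kunneth
  cycles := T.cycles

theorem int_cry {T : Pub.Crystals K H} {s : K ≃+* K} {c f : ℕ} (h : T.IsCrystalline s c f) :
    (toInt T).IsCrystalline s c f where
  add X := (h.semilinear X).1
  smul X := (h.semilinear X).2
  iterate := h.iterate
  cross := h.cross
  cycle X i z hz := h.cycle X i hz
  mul := h.mul

theorem int_slant {T : Pub.Crystals K H} {X : 𝒱} (l : H X →ₗ[K] K) (Y : 𝒱) (z : H (X * Y)) :
    (toInt T).slant (X := X) l Y z = Pub.slant (T.kunneth X Y) l z := rfl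

theorem int_model [Algebra K ℂ] {T : Pub.Crystals K H} {κ : Type} [Field κ] [Fintype κ]
    {C : Covering κ} {X : 𝒱} {I : Type} [Fintype I] [DecidableEq I] {codim : I → ℕ} {e : I → H X}
    {l : I → H X →ₗ[K] K} (h : T.IsModel C X codim e l) :
    (toInt T).IsModel C X codim e l where
  nonempty := h.nonempty
  cycle := h.cycle
  slant k Y w z hz := h.algebraic k Y w z hz
  dual := h.dual
  rest := by
    obtain ⟨W, Φ, g, h1⟩ := h.part
    exact ⟨W, Φ, g, h1.stable, h1.coordinate, h1.mem, h1.covering.1, h1.covering.2⟩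

theorem int_products (T : Pub.Crystals K H) {ι : Type} {X : ι → 𝒱} {Z : 𝒱} {I : ι → Type}
    (codim : ∀ i, I i → ℕ) (e : ∀ i, I i → H (X i)) (P : ℕ → Set (H Z)) :
    ∀ (L : List ι) (w : ℕ), T.products codim e P L w =
      (toInt T).products codim e (fun w z => z ∈ P w) L w := by
  intro L
  induction L with
  | nil => intro w; rfl
  | cons i L ih =>
    intro w
    ext x
    constructor
    · rintro ⟨k, y, h1, h2, h3⟩
      exact ⟨k, y, h1, by rw [← ih]; exact h2, h3⟩
    · rintro ⟨k, y, h1, h2, h3⟩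
      exact ⟨k, y, h1, by rw [ih]; exact h2, h3⟩

/-- the theorem -/
theorem comesFrom (c : ℕ) [Fact c.Prime] (κ : Type) [Field κ] [Fintype κ] [CharP κ c] (f : ℕ)
    (hf : Fintype.card κ = c ^ f) [Algebra K ℂ] (s : K ≃+* K) (T : Pub.Crystals K H)
    (hT : T.IsCrystalline s c f) {ι : Type} [Fintype ι] [DecidableEq ι] (C : ι → Covering κ)
    (X : ι → 𝒱) (Z : 𝒱) {I : ι → Type} [∀ i, Fintype (I i)] [∀ i, DecidableEq (I i)]
    (codim : ∀ i, I i → ℕ) (e : ∀ i, I i → H (X i)) (l : ∀ i, I i → H (X i) →ₗ[K] K)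
    (hX : ∀ i, T.IsModel (C i) (X i) (codim i) (e i) (l i)) (lam b N : ℕ)
    (hC : Pub.IsAdmissibleFamily C c f N lam b)
    (hZ : Pub.IsAdmissibleFactor c (Fintype.card κ) N lam b (complexified (T.Fr Z)))
    (L : List ι) (hL : L.Nodup) :
    T.ComesFrom s c (Fintype.card κ) X Z codim e L := by
  have hf0 : 0 < f := by
    rcases Nat.eq_zero_or_pos f with h | h
    · rw [h, pow_zero] at hf
      have := Fintype.one_lt_card (α := κ)
      omega
    · exact h
  have hq1 : 1 < Fintype.card κ := Fintype.one_lt_card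
  obtain ⟨hC, hN⟩ := hC
  obtain ⟨hZ, hfew⟩ := hZ
  have hN' : 0 < N ∧ (∀ i, (C i).N ∣ N) ∧ IsSeparated C c f N lam b := by
    rcases hN with h | ⟨rfl, h1, h2, h3⟩
    · exact h
    · exact ⟨prod_pos fun i _ => (h1 i).1.pos, fun i => dvd_prod_of_mem _ (mem_univ i),
        isSeparated_of_large hf0 h1 h2 h3⟩
  have hfew' : HasFewSlopes c (Fintype.card κ) N lam b (complexified (T.Fr Z)) := by
    rcases hfew with h | h
    · exact h
    · exact hasFewSlopes_of hq1 hZ h
  choose W Φ g h1 h2 h3 h4 h5 using fun i => (int_model (hX i)).rest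
  have hcov : ∀ i, Pool.Agent.N876.TC.IsCov (C i).N (C i).l (C i).a (C i).z
      (complexified (Φ i)) (complexified (g i)) :=
    fun i => ⟨(h4 i).commute, (h4 i).order, (h4 i).invariants,
      fun L _ _ _ t => (h4 i).lefschetz L t⟩
  have hres : Pool.Agent.N876.FL.NoResF (Fintype.card κ : ℂ)
      (fun i => {α | (complexified (Φ i)).HasEigenvalue α})
      {β | (complexified (T.Fr Z)).HasEigenvalue β} := by
    refine nores_fewF hN'.1 (fun i => (hC i).two_le) hN'.2.1 κ hf (fun i => (hC i).root)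
      (fun i => (C i).l) (fun i => (C i).a) (fun i => (hC i).coprime) (RingHom.id ℂ) hcov
      ((isSeparated_iff hf0 hN'.1 hN'.2.1).1 hN'.2.2) h5 ?_
    rintro _ ⟨β, hβ, rfl⟩
    obtain ⟨h6, d, h7⟩ := hZ β hβ
    exact ⟨h6, d, h7, hfew' β hβ d h7⟩
  have hD : Data (toInt T) s c f (Fintype.card κ) C X Z codim e l W Φ :=
    ⟨int_cry hT, hf, hq1, rfl, fun i => int_model (hX i), fun i => ⟨h1 i, h2 i, h3 i⟩, h5,
      fun β hβ => (hZ β hβ).2, hres⟩
  refine ⟨fun m w hm => ?_, fun w => ?_, ?_, ?_⟩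
  · ext x
    rw [int_products]
    exact tate_classes hD hm L hL w x
  · ext x
    rw [int_products]
    exact fixed_classes hD L hL w x
  · have h6 : ∀ V : 𝒱, T.Tate (Fintype.card κ) V ↔ (toInt T).Tate (Fintype.card κ) V := by
      intro V
      refine forall_congr' fun w => forall_congr' fun x => ?_
      have h7 : x ∈ Pub.linearClasses (T.Fr V) (Fintype.card κ) 1 w ↔
          T.Fr V x = (Fintype.card κ : K) ^ w • x := by
        show (T.Fr V ^ 1) x = (Fintype.card κ : K) ^ (1 * w) • x ↔ _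
        rw [pow_one, one_mul]
      rw [h7]
      exact Iff.rfl
    rw [h6, h6]
    exact tate_iff hD L hL
  · exact fixed_iff hD L hL

end Pool.Agent.U222.CR
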