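import Pool.Agent.U222.CR.Pub

/-!
# Crystalline cohomology of products of varieties over a finite field
-/

set_option autoImplicit false

open Finset TensorProduct

namespace Pool.Agent.U222.CR

open Pool.Agent.U222.SL
open Pool.Agent.U222.CR.Pub (productOf fixedField complexified)

/-- The crystalline cohomology `H X` of the varieties `X` of a class closed under products: the vector
spaces over the field of fractions `K` of the Witt vectors, the crystalline Frobenius `F`, its
power `Fr` which is linear over `K`, the isomorphisms of Künneth, and the classes of the algebraic cycles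
of codimension `i`. -/
structure Crystals (K 𝒱 : Type) [Field K] [Mul 𝒱] : Type 1 where
  H : 𝒱 → Type
  [group : ∀ X, AddCommGroup (H X)]
  [module : ∀ X, Module K (H X)]
  [finite : ∀ X, FiniteDimensional K (H X)]
  F : ∀ X, H X → H X
  Fr : ∀ X, Module.End K (H X)
  kunneth : ∀ X Y, H X ⊗[K] H Y ≃ₗ[K] H (X * Y)
  cycles : ∀ X, ℕ → Set (H X)

attribute [instance] Crystals.group Crystals.module Crystals.finite

section theory

variable {K 𝒱 : Type} [Field K] [Mul 𝒱]

/-- The product of two classes. -/
noncomputable def Crystals.cross (T : Crystals K 𝒱) {X Y : 𝒱} (x : T.H X) (y : T.H Y) :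
    T.H (X * Y) :=
  T.kunneth X Y (x ⊗ₜ y)

/-- The crystalline Frobenius is semilinear with respect to the automorphism `s` of `K`, its `f`-th power
is `Fr`, it is compatible with products, and it multiplies the classes of the cycles of
codimension `i` by `c ^ i`; products of cycles are cycles. -/
structure Crystals.IsCrystalline (T : Crystals K 𝒱) (s : K ≃+* K) (c f : ℕ) : Prop where
  add : ∀ X x y, T.F X (x + y) = T.F X x + T.F X y
  smul : ∀ X (a : K) x, T.F X (a • x) = s a • T.F X x
  iterate : ∀ X x, T.Fr X x = (T.F X)^[f] x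
  cross : ∀ X Y (x : T.H X) (y : T.H Y), T.F (X * Y) (T.cross x y) = T.cross (T.F X x) (T.F Y y)
  cycle : ∀ X i, ∀ z ∈ T.cycles X i, T.F X z = (c : K) ^ i • z
  mul : ∀ X Y i j, ∀ x ∈ T.cycles X i, ∀ y ∈ T.cycles Y j,
    T.cross x y ∈ T.cycles (X * Y) (i + j)

/-- The map `H (X × Y) → H Y` given by a linear form on `H X`. -/
noncomputable def Crystals.slant (T : Crystals K 𝒱) {X : 𝒱} (l : T.H X →ₗ[K] K) (Y : 𝒱) :
    T.H (X * Y) →ₗ[K] T.H Y :=
  (TensorProduct.lid K (T.H Y)).toLinearMap ∘ₗ (l.rTensor (T.H Y)) ∘ₗ
    (T.kunneth X Y).symm.toLinearMap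

/-- A smooth projective model `X` of a cyclic covering: the cohomology of `X` is the direct sum of the
lines of the classes `e k` of algebraic cycles of codimension `codim k` and of a part `W`, which is pure
of weight `n` and has no invariants under the generator `g` of the covering group, with the trace formula;
the coordinates of `e k` are given by the intersection with algebraic cycles, so the slant
products with them map cycle classes to cycle classes. -/
structure Crystals.IsModel (T : Crystals K 𝒱) [Algebra K ℂ] {κ : Type} [Field κ] [Fintype κ]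
    (C : Covering κ) (X : 𝒱) {I : Type} [Fintype I] [DecidableEq I] (codim : I → ℕ) (e : I → T.H X)
    (l : I → T.H X →ₗ[K] K) : Prop where
  nonempty : Nonempty I
  cycle : ∀ k, e k ∈ T.cycles X (codim k)
  slant : ∀ k Y w, ∀ z ∈ T.cycles (X * Y) w,
    (codim k ≤ w → T.slant (l k) Y z ∈ T.cycles Y (w - codim k)) ∧
      (w < codim k → T.slant (l k) Y z = 0)
  dual : ∀ k k', l k (e k') = if k = k' then 1 else 0
  rest : ∃ (W : Submodule K (T.H X)) (Φ g : Module.End K W),
    (∀ x : W, T.F X x ∈ W ∧ T.Fr X x = Φ x) ∧ (∀ k, ∀ x ∈ W, l k x = 0) ∧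
      (∀ x, x - ∑ k, l k x • e k ∈ W) ∧ IsCyclicCovering C (complexified Φ) (complexified g) ∧
      ∀ α, (complexified Φ).HasEigenvalue α → ‖α‖ ^ 2 = (Fintype.card κ : ℝ) ^ C.n

/-- The products `e_{k_1} × (e_{k_2} × (⋯ × z))` of classes of cycles on the `X_i` and of a class `z` on
`Z` such that `P (w - codim) z` holds, where `codim` is the sum of the codimensions of the
`e_{k_i}`. -/
def Crystals.products (T : Crystals K 𝒱) {ι : Type} {X : ι → 𝒱} {Z : 𝒱} {I : ι → Type}
    (codim : ∀ i, I i → ℕ) (e : ∀ i, I i → T.H (X i)) (P : ℕ → T.H Z → Prop) :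
    ∀ (L : List ι), ℕ → Set (T.H (productOf X Z L))
  | [], w => {z | P w z}
  | i :: L, w => {x | ∃ (k : I i) (y : T.H (productOf X Z L)), codim i k ≤ w ∧
      y ∈ T.products codim e P L (w - codim i k) ∧ T.cross (e i k) y = x}

/-- The crystalline Tate conjecture for `X`, in the form which is linear over `K`: in all codimensions
`w` the space of the classes `x` with `Fr x = q ^ w x` is spanned over `K` by the classes of algebraic
cycles. -/
def Crystals.Tate (T : Crystals K 𝒱) (q : ℕ) (X : 𝒱) : Prop :=
  ∀ w x, T.Fr X x = (q : K) ^ w • x → x ∈ Submodule.span K (T.cycles X w)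

/-- The crystalline Tate conjecture for `X`, in the form over the fixed field of `s`: in all
codimensions `w` the classes `x` with `F x = c ^ w x` are linear combinations of classes of algebraic cycles
with coefficients in the fixed field. -/
def Crystals.TateFixed (T : Crystals K 𝒱) (s : K ≃+* K) (c : ℕ) (X : 𝒱) : Prop :=
  ∀ w x, T.F X x = (c : K) ^ w • x → x ∈ Submodule.span (fixedField s) (T.cycles X w)

end theory

end Pool.Agent.U222.CR
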