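import Pool.Agent.U222.CR.Defs
import Pool.Agent.N876.FL.Lin

/-!
# Eigenvalues of complexifications
-/

set_option autoImplicit false

open Finset TensorProduct

namespace Pool.Agent.U222.CR

open Pool.Agent.N876.FL
open Pool.Agent.U222.CR.Pub (productOf fixedField complexified)

section lin

variable {K : Type} [Field K] [Algebra K ℂ]
  {V U : Type} [AddCommGroup V] [Module K V] [FiniteDimensional K V]
  [AddCommGroup U] [Module K U] [FiniteDimensional K U]

omit [FiniteDimensional K V] in
theorem bc_pow (φ : Module.End K V) (m : ℕ) :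
    (complexified φ) ^ m = complexified (φ ^ m) :=
  (map_pow (Module.End.baseChangeHom K ℂ V) φ m).symm

omit [FiniteDimensional K V] [FiniteDimensional K U] in
theorem bc_comm {φ : Module.End K V} {ψ : Module.End K U} {P : V →ₗ[K] U}
    (h : ∀ x, P (φ x) = ψ (P x)) (v : ℂ ⊗[K] V) :
    P.baseChange ℂ (complexified φ v) = complexified ψ (P.baseChange ℂ v) := by
  have h1 : P ∘ₗ φ = ψ ∘ₗ P := LinearMap.ext h
  have h2 := congrArg (fun f => LinearMap.baseChange ℂ f v) h1
  simp only [LinearMap.baseChange_comp] at h2
  exact h2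

omit [FiniteDimensional K V] in
theorem one_tmul_ne {v : V} (hv : v ≠ 0) : (1 : ℂ) ⊗ₜ[K] v ≠ 0 := by
  intro h0
  apply hv
  have h1 : Function.Injective (fun v : V => (1 : ℂ) ⊗ₜ[K] v) := by
    have := Module.Flat.rTensor_preserves_injective_linearMap (M := V)
      (Algebra.linearMap K ℂ) (algebraMap K ℂ).injective
    intro x y hxy
    have h2 : (Algebra.linearMap K ℂ).rTensor V ((1 : K) ⊗ₜ x) =
        (Algebra.linearMap K ℂ).rTensor V ((1 : K) ⊗ₜ y) := by
      rw [LinearMap.rTensor_tmul, LinearMap.rTensor_tmul, Algebra.linearMap_apply, map_one]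
      exact hxy
    have h3 := this h2
    have h4 := congrArg (TensorProduct.lid K V) h3
    simpa using h4
  exact h1 (by show (1 : ℂ) ⊗ₜ[K] v = (1 : ℂ) ⊗ₜ[K] (0 : V); rw [h0, TensorProduct.tmul_zero])

omit [FiniteDimensional K V] [FiniteDimensional K U] in
theorem distrib_map (F : Module.End K V) (G : Module.End K U) (u : ℂ ⊗[K] (V ⊗[K] U)) :
    TensorProduct.AlgebraTensorModule.distribBaseChange K ℂ V U
        (complexified (TensorProduct.map F G) u) =
      TensorProduct.map (complexified F) (complexified G)
        (TensorProduct.AlgebraTensorModule.distribBaseChange K ℂ V U u) := by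
  induction u using TensorProduct.induction_on with
  | zero => simp only [map_zero]
  | add x y hx hy => simp only [map_add, hx, hy]
  | tmul a t =>
    induction t using TensorProduct.induction_on with
    | zero => simp only [TensorProduct.tmul_zero, map_zero]
    | add x y hx hy => simp only [TensorProduct.tmul_add, map_add, hx, hy]
    | tmul x y =>
      simp [complexified]

theorem eig_tensor_bc (F : Module.End K V) (G : Module.End K U) {m : ℕ} {μ : ℂ}
    {u : ℂ ⊗[K] (V ⊗[K] U)} (hu0 : u ≠ 0)
    (hu : ((complexified (TensorProduct.map F G)) ^ m) u = μ • u) :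
    ∃ α β : ℂ, (complexified F).HasEigenvalue α ∧ (complexified G).HasEigenvalue β ∧
      (α * β) ^ m = μ := by
  set e := TensorProduct.AlgebraTensorModule.distribBaseChange K ℂ V U with he
  have h1 : ∀ (n : ℕ) (u : ℂ ⊗[K] (V ⊗[K] U)),
      e (((complexified (TensorProduct.map F G)) ^ n) u) =
        ((TensorProduct.map (complexified F) (complexified G)) ^ n) (e u) := by
    intro n
    induction n with
    | zero => intro u; rfl
    | succ n ih =>
      intro u
      rw [pow_succ, Module.End.mul_apply, ih, distrib_map, pow_succ, Module.End.mul_apply]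
  refine eig_tensor (u := e u) (fun h0 => hu0 (e.injective (by rw [h0, map_zero]))) (m := m)
    (F := complexified F) (G := complexified G) ?_
  rw [← h1 m u, hu, map_smul]

/-- no eigenvectors in a tensor product -/
theorem tensor_zero {F : Module.End K V} {G : Module.End K U} {m : ℕ} {μ : K} {u : V ⊗[K] U}
    (hu : ((TensorProduct.map F G) ^ m) u = μ • u)
    (h : ∀ α β : ℂ, (complexified F).HasEigenvalue α → (complexified G).HasEigenvalue β →
      (α * β) ^ m ≠ algebraMap K ℂ μ) : u = 0 := by
  by_contra h0
  obtain ⟨α, β, h1, h2, h3⟩ := eig_tensor_bc F G (m := m) (μ := algebraMap K ℂ μ)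
    (u := (1 : ℂ) ⊗ₜ[K] u) (one_tmul_ne h0) (by
      rw [bc_pow]
      show LinearMap.baseChange ℂ ((TensorProduct.map F G) ^ m) ((1 : ℂ) ⊗ₜ[K] u) = _
      rw [LinearMap.baseChange_tmul, hu, TensorProduct.tmul_smul, algebraMap_smul])
  exact h α β h1 h2 h3

omit [FiniteDimensional K V] in
/-- an eigenvector gives an eigenvalue of the complexification -/
theorem eig_of_vec {F : Module.End K V} {m : ℕ} {μ : K} {v : V} [FiniteDimensional K V] (hv0 : v ≠ 0)
    (hv : (F ^ m) v = μ • v) : ∃ γ : ℂ, (complexified F).HasEigenvalue γ ∧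
      γ ^ m = algebraMap K ℂ μ := by
  obtain ⟨α, β, h1, h2, h3⟩ := eig_tensor_bc F (LinearMap.id : Module.End K K) (m := m)
    (μ := algebraMap K ℂ μ) (u := (1 : ℂ) ⊗ₜ[K] (v ⊗ₜ[K] (1 : K))) (one_tmul_ne (by
      intro h0
      apply hv0
      have h4 := congrArg (TensorProduct.rid K V) h0
      simpa using h4)) (by
      rw [bc_pow]
      show LinearMap.baseChange ℂ _ _ = _
      rw [LinearMap.baseChange_tmul]
      have h5 : ∀ n : ℕ, ((TensorProduct.map F (LinearMap.id : Module.End K K)) ^ n)
          (v ⊗ₜ[K] (1 : K)) = ((F ^ n) v) ⊗ₜ[K] (1 : K) := by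
        intro n
        induction n with
        | zero => rfl
        | succ n ih =>
          rw [pow_succ', Module.End.mul_apply, ih, TensorProduct.map_tmul, pow_succ',
            Module.End.mul_apply]
          rfl
      rw [h5 m, hv, ← TensorProduct.smul_tmul', TensorProduct.tmul_smul, algebraMap_smul])
  obtain ⟨x, hx⟩ := h2.exists_hasEigenvector
  have h6 : β = 1 := by
    have h7 : complexified (LinearMap.id : Module.End K K) x = x := by
      show LinearMap.baseChange ℂ LinearMap.id x = x
      rw [LinearMap.baseChange_id]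
      rfl
    have h8 := hx.apply_eq_smul
    rw [h7] at h8
    have h9 : (β - 1) • x = 0 := by rw [sub_smul, one_smul, ← h8, sub_self]
    rcases smul_eq_zero.1 h9 with h | h
    · exact sub_eq_zero.1 h
    · exact absurd h hx.2
  rw [h6, mul_one] at h3
  exact ⟨α, h1, h3⟩

omit [FiniteDimensional K V] [FiniteDimensional K U] in
/-- the image of an eigenvector -/
theorem eig_image {φ : Module.End K V} {ψ : Module.End K U} {P : V →ₗ[K] U}
    (h : ∀ x, P (φ x) = ψ (P x)) {α : ℂ} {v : ℂ ⊗[K] V} (hv : complexified φ v = α • v)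
    (h0 : P.baseChange ℂ v ≠ 0) : (complexified ψ).HasEigenvalue α := by
  refine Module.End.hasEigenvalue_of_hasEigenvector (x := P.baseChange ℂ v)
    (Module.End.hasEigenvector_iff.2 ⟨Module.End.mem_eigenspace_iff.2 ?_, h0⟩)
  rw [← bc_comm h, hv, map_smul]

end lin

end Pool.Agent.U222.CR
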