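import Pool.Agent.U222.CR.Step

/-!
# The product of several factors
-/

set_option autoImplicit false
set_option linter.unusedSectionVars false

open Finset TensorProduct

namespace Pool.Agent.U222.CR

open Pool.Agent.U222.SL Pool.Agent.N876.FL
open Pool.Agent.U222.CR.Pub (productOf fixedField complexified)

section main

variable {K 𝒱 : Type} [Field K] [Mul 𝒱] {T : Crystals K 𝒱} {s : K ≃+* K} {c f : ℕ}
  [Algebra K ℂ] {κ : Type} [Field κ] [Fintype κ] {ι : Type} {C : ι → Covering κ} {X : ι → 𝒱} {Z : 𝒱}
  {I : ι → Type} [∀ i, Fintype (I i)] [∀ i, DecidableEq (I i)] {codim : ∀ i, I i → ℕ}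
  {e : ∀ i, I i → T.H (X i)} {l : ∀ i, I i → T.H (X i) →ₗ[K] K}

/-- everything that is used -/
structure Data (T : Crystals K 𝒱) (s : K ≃+* K) (c f q : ℕ) (C : ι → Covering κ) (X : ι → 𝒱) (Z : 𝒱)
    (codim : ∀ i, I i → ℕ) (e : ∀ i, I i → T.H (X i)) (l : ∀ i, I i → T.H (X i) →ₗ[K] K)
    (W : ∀ i, Submodule K (T.H (X i))) (Φ : ∀ i, Module.End K (W i)) : Prop where
  cry : T.IsCrystalline s c f
  hq : q = c ^ f
  hq1 : 1 < q
  card : Fintype.card κ = q
  model : ∀ i, T.IsModel (C i) (X i) (codim i) (e i) (l i)
  rest : ∀ i, Rest T (X i) (e i) (l i) (W i) (Φ i)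
  pure : ∀ i α, (complexified (Φ i)).HasEigenvalue α → ‖α‖ ^ 2 = (q : ℝ) ^ (C i).n
  pureZ : ∀ β, (complexified (T.Fr Z)).HasEigenvalue β → ∃ j : ℕ, ‖β‖ ^ 2 = (q : ℝ) ^ j
  res : NoResF (q : ℂ) (fun i => {α | (complexified (Φ i)).HasEigenvalue α})
    {β | (complexified (T.Fr Z)).HasEigenvalue β}

variable {q : ℕ} {W : ∀ i, Submodule K (T.H (X i))} {Φ : ∀ i, Module.End K (W i)}

theorem Data.q0 (h : Data T s c f q C X Z codim e l W Φ) : (q : K) ≠ 0 := by
  intro h0
  have h1 := congrArg (algebraMap K ℂ) h0
  rw [map_natCast, map_zero] at h1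
  have := h.hq1
  exact absurd (by exact_mod_cast h1 : q = 0) (by omega)

theorem Data.c0 (h : Data T s c f q C X Z codim e l W Φ) : (c : K) ≠ 0 := by
  intro h0
  have h1 := h.q0
  rw [h.hq, Nat.cast_pow, h0] at h1
  have h2 : f ≠ 0 := by
    rintro rfl
    have := h.hq
    have := h.hq1
    rw [pow_zero] at *
    omega
  exact h1 (zero_pow h2)

/-- the shape of the eigenvalues -/
theorem shape (h : Data T s c f q C X Z codim e l W Φ) : ∀ L : List ι, L.Nodup → ∀ γ : ℂ,
    (complexified (T.Fr (productOf X Z L))).HasEigenvalue γ →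
      ∃ (J : Finset ι) (α : ι → ℂ) (β : ℂ) (r : ℕ), (∀ i ∈ J, i ∈ L) ∧
        (∀ i ∈ J, (complexified (Φ i)).HasEigenvalue (α i)) ∧
        (complexified (T.Fr Z)).HasEigenvalue β ∧ γ = (∏ i ∈ J, α i) * (q : ℂ) ^ r * β := by
  classical
  intro L
  induction L with
  | nil =>
    intro _ γ hγ
    exact ⟨∅, fun _ => 0, γ, 0, fun i hi => absurd hi (notMem_empty i),
      fun i hi => absurd hi (notMem_empty i), hγ, by simp⟩
  | cons i L ih =>
    intro hL γ hγ
    obtain ⟨hiL, hL'⟩ := List.nodup_cons.1 hL
    obtain ⟨α, β, hα, hβ, rfl⟩ := eig_prod h.cry (X := X i) (B := productOf X Z L) hγ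
    obtain ⟨J, α', β', r, hJ, hα', hβ', rfl⟩ := ih hL' β hβ
    rcases eig_model h.cry h.hq (h.model i) (h.rest i) hα with ⟨k, rfl⟩ | hα1
    · exact ⟨J, α', β', codim i k + r, fun j hj => List.mem_cons_of_mem _ (hJ j hj), hα', hβ', by
        rw [pow_add]; ring⟩
    · have hiJ : i ∉ J := fun hi => hiL (hJ i hi)
      refine ⟨insert i J, Function.update α' i α, β', r, ?_, ?_, hβ', ?_⟩
      · intro j hj
        rcases mem_insert.1 hj with rfl | hj
        · exact List.mem_cons_self ..
        · exact List.mem_cons_of_mem _ (hJ j hj)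
      · intro j hj
        rcases mem_insert.1 hj with rfl | hj
        · rw [Function.update_self]; exact hα1
        · rw [Function.update_of_ne (ne_of_mem_of_not_mem hj hiJ)]; exact hα' j hj
      · rw [prod_insert hiJ, Function.update_self]
        have h1 : ∏ j ∈ J, Function.update α' i α j = ∏ j ∈ J, α' j :=
          prod_congr rfl fun j hj => Function.update_of_ne (ne_of_mem_of_not_mem hj hiJ) _ _
        rw [h1]
        ring

/-- no resonances -/
theorem no_res (h : Data T s c f q C X Z codim e l W Φ) {i : ι} {L : List ι} (hL : (i :: L).Nodup)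
    {m w : ℕ} (hm : 0 < m) {α β : ℂ} (hα : (complexified (Φ i)).HasEigenvalue α)
    (hβ : (complexified (T.Fr (productOf X Z L))).HasEigenvalue β) :
    (α * β) ^ m ≠ (q : ℂ) ^ (m * w) := by
  classical
  obtain ⟨hiL, hL'⟩ := List.nodup_cons.1 hL
  obtain ⟨J, α', β', r, hJ, hα', hβ', rfl⟩ := shape h L hL' β hβ
  have hiJ : i ∉ J := fun hi => hiL (hJ i hi)
  have h1 := h.res (insert i J) (insert_nonempty _ _) (Function.update α' i α) (by
    intro j hj
    rcases mem_insert.1 hj with rfl | hj
    · rw [Function.update_self]; exact hα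
    · rw [Function.update_of_ne (ne_of_mem_of_not_mem hj hiJ)]; exact hα' j hj) β' hβ' r m w hm
  rw [prod_insert hiJ, Function.update_self] at h1
  have h2 : ∏ j ∈ J, Function.update α' i α j = ∏ j ∈ J, α' j :=
    prod_congr rfl fun j hj => Function.update_of_ne (ne_of_mem_of_not_mem hj hiJ) _ _
  rw [h2] at h1
  convert h1 using 2
  ring

/-- the eigenvalues have absolute value at least one -/
theorem one_le (h : Data T s c f q C X Z codim e l W Φ) {L : List ι} (hL : L.Nodup) {γ : ℂ}
    (hγ : (complexified (T.Fr (productOf X Z L))).HasEigenvalue γ) : 1 ≤ ‖γ‖ := by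
  classical
  obtain ⟨J, α, β, r, hJ, hα, hβ, rfl⟩ := shape h L hL γ hγ
  have hq1 : (1 : ℝ) ≤ q := by exact_mod_cast h.hq1.le
  have h1 : ∀ {x : ℝ} {n : ℕ}, 0 ≤ x → x ^ 2 = (q : ℝ) ^ n → 1 ≤ x := by
    intro x n hx hxn
    by_contra hlt
    push Not at hlt
    have h2 : x ^ 2 < 1 := by nlinarith
    have h3 : (1 : ℝ) ≤ (q : ℝ) ^ n := one_le_pow₀ hq1
    linarith
  rw [norm_mul, norm_mul, norm_prod, norm_pow, Complex.norm_natCast]
  have h2 : 1 ≤ ∏ i ∈ J, ‖α i‖ := by
    have h3 : ∀ A : Finset ι, A ⊆ J → 1 ≤ ∏ i ∈ A, ‖α i‖ := by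
      intro A
      induction A using Finset.induction_on with
      | empty => intro _; rw [prod_empty]
      | insert i A hi ih =>
        intro hA
        rw [prod_insert hi]
        exact one_le_mul_of_one_le_of_one_le
          (h1 (norm_nonneg _) (h.pure i _ (hα i (hA (mem_insert_self i A)))))
          (ih fun x hx => hA (mem_insert_of_mem hx))
    exact h3 J (Subset.refl J)
  obtain ⟨j, hj⟩ := h.pureZ β hβ
  exact one_le_mul_of_one_le_of_one_le (one_le_mul_of_one_le_of_one_le h2 (one_le_pow₀ hq1))
    (h1 (norm_nonneg _) hj)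

/-- the components of an eigenvector on a product -/
theorem comp_eig (h : Data T s c f q C X Z codim e l W Φ) {i : ι} {L : List ι}
    (hL : (i :: L).Nodup) {m w : ℕ} (hm : 0 < m) {x : T.H (X i * productOf X Z L)}
    (hx : (T.Fr (X i * productOf X Z L) ^ m) x = (q : K) ^ (m * w) • x) :
    x = ∑ k, T.cross (e i k) (T.slant (l i k) (productOf X Z L) x) ∧
      ∀ k, (codim i k ≤ w → (T.Fr (productOf X Z L) ^ m) (T.slant (l i k) _ x) =
          (q : K) ^ (m * (w - codim i k)) • T.slant (l i k) _ x) ∧
        (w < codim i k → T.slant (l i k) (productOf X Z L) x = 0) := by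
  refine ⟨rest_zero h.cry h.hq (h.model i) (h.rest i) _ hx fun α β hα hβ => ?_, fun k => ?_⟩
  · rw [map_pow, map_natCast]
    exact no_res h hL hm hα hβ
  · have h1 : ∀ (n : ℕ) (u : T.H (X i * productOf X Z L)),
        T.slant (l i k) _ ((T.Fr (X i * productOf X Z L) ^ n) u) =
          ((q : K) ^ codim i k) ^ n • (T.Fr (productOf X Z L) ^ n) (T.slant (l i k) _ u) := by
      intro n
      induction n with
      | zero => intro u; rw [pow_zero, pow_zero, one_smul]; rfl
      | succ n ih =>
        intro u
        rw [pow_succ', Module.End.mul_apply, slant_Fr h.cry h.hq (h.model i) (h.rest i), ih,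
          map_smul, smul_smul, ← pow_succ', pow_succ' (T.Fr (productOf X Z L)),
          Module.End.mul_apply]
    have h2 := h1 m x
    rw [hx, map_smul, ← pow_mul] at h2
    have hq := h.q0
    constructor
    · intro hk
      have h3 : (q : K) ^ (codim i k * m) ≠ 0 := pow_ne_zero _ hq
      refine smul_right_injective _ h3 ?_
      show (q : K) ^ (codim i k * m) • _ = (q : K) ^ (codim i k * m) • _
      rw [← h2, smul_smul, ← pow_add]
      congr 2
      have : m * (w - codim i k) + m * codim i k = m * w := by
        rw [← mul_add, Nat.sub_add_cancel hk]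
      linarith [mul_comm m (codim i k)]
    · intro hk
      by_contra h0
      have h3 : (T.Fr (productOf X Z L) ^ m) (T.slant (l i k) _ x) =
          ((q : K) ^ (m * (codim i k - w)))⁻¹ • T.slant (l i k) _ x := by
        have h4 : (q : K) ^ (codim i k * m) ≠ 0 := pow_ne_zero _ hq
        refine smul_right_injective _ h4 ?_
        show (q : K) ^ (codim i k * m) • _ = (q : K) ^ (codim i k * m) • _
        rw [← h2, smul_smul]
        congr 1
        have h5 : codim i k * m = m * w + m * (codim i k - w) := by
          rw [← mul_add, Nat.add_sub_cancel' hk.le, mul_comm]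
        rw [h5, pow_add, mul_assoc, mul_inv_cancel₀ (pow_ne_zero _ hq), mul_one]
      obtain ⟨γ, h4, h5⟩ := eig_of_vec h0 h3
      have h6 := one_le h (List.nodup_cons.1 hL).2 h4
      rw [map_inv₀, map_pow, map_natCast] at h5
      have h7 : ‖γ‖ ^ m = ((q : ℝ) ^ (m * (codim i k - w)))⁻¹ := by
        rw [← norm_pow, h5, norm_inv, norm_pow, Complex.norm_natCast]
      have h8 : (1 : ℝ) ≤ ‖γ‖ ^ m := one_le_pow₀ h6
      have hq1 : (1 : ℝ) < q := by exact_mod_cast h.hq1
      have h9 : (1 : ℝ) < (q : ℝ) ^ (m * (codim i k - w)) :=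
        one_lt_pow₀ hq1 (Nat.mul_pos hm (by omega)).ne'
      rw [h7] at h8
      have h10 := inv_lt_one_of_one_lt₀ h9
      linarith

/-- part 1 -/
theorem tate_classes (h : Data T s c f q C X Z codim e l W Φ) {m : ℕ} (hm : 0 < m) :
    ∀ L : List ι, L.Nodup → ∀ (w : ℕ) (x : T.H (productOf X Z L)),
      (T.Fr (productOf X Z L) ^ m) x = (q : K) ^ (m * w) • x ↔
        x ∈ Submodule.span K (T.products codim e
          (fun w z => (T.Fr Z ^ m) z = (q : K) ^ (m * w) • z) L w) := by
  intro L
  induction L with
  | nil =>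
    intro _ w x
    constructor
    · intro hx
      exact Submodule.subset_span hx
    · intro hx
      refine Module.End.mem_eigenspace_iff.1 ((Submodule.span_le.2 ?_) hx)
      intro z hz
      exact Module.End.mem_eigenspace_iff.2 hz
  | cons i L ih =>
    intro hL w x
    obtain ⟨hiL, hL'⟩ := List.nodup_cons.1 hL
    constructor
    · intro hx
      obtain ⟨h1, h2⟩ := comp_eig h hL hm (x := x) hx
      rw [h1]
      refine Submodule.sum_mem _ fun k _ => ?_
      rcases Nat.lt_or_ge w (codim i k) with hk | hk
      · rw [(h2 k).2 hk]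
        unfold Crystals.cross
        rw [TensorProduct.tmul_zero, map_zero]
        exact Submodule.zero_mem _
      · have h3 := (ih hL' (w - codim i k) _).1 ((h2 k).1 hk)
        refine Submodule.span_induction
          (p := fun y _ => T.cross (e i k) y ∈ Submodule.span K (T.products codim e
            (fun w z => (T.Fr Z ^ m) z = (q : K) ^ (m * w) • z) (i :: L) w))
          ?_ ?_ ?_ ?_ h3
        · intro y hy
          exact Submodule.subset_span ⟨k, y, hk, hy, rfl⟩
        · unfold Crystals.cross
          rw [TensorProduct.tmul_zero, map_zero]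
          exact Submodule.zero_mem _
        · intro y y' _ _ hy hy'
          unfold Crystals.cross at hy hy' ⊢
          rw [TensorProduct.tmul_add, map_add]
          exact Submodule.add_mem _ hy hy'
        · intro a y _ hy
          unfold Crystals.cross at hy ⊢
          rw [TensorProduct.tmul_smul, map_smul]
          exact Submodule.smul_mem _ a hy
    · intro hx
      refine Module.End.mem_eigenspace_iff.1 ((Submodule.span_le.2 ?_) hx)
      rintro _ ⟨k, y, hk, hy, rfl⟩
      have hy' := (ih hL' (w - codim i k) y).2 (Submodule.subset_span hy)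
      · refine Module.End.mem_eigenspace_iff.2 ?_
        have h2 : ∀ n : ℕ, (T.Fr (X i * productOf X Z L) ^ n) (T.cross (e i k) y) =
            T.cross ((T.Fr (X i) ^ n) (e i k)) ((T.Fr (productOf X Z L) ^ n) y) := by
          intro n
          induction n with
          | zero => rfl
          | succ n ihn =>
            rw [pow_succ', Module.End.mul_apply, ihn, Fr_cross h.cry, pow_succ',
              Module.End.mul_apply, pow_succ', Module.End.mul_apply]
        have h3 : ∀ n : ℕ, (T.Fr (X i) ^ n) (e i k) = ((q : K) ^ codim i k) ^ n • e i k := by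
          intro n
          induction n with
          | zero => rw [pow_zero, pow_zero, one_smul]; rfl
          | succ n ihn =>
            rw [pow_succ', Module.End.mul_apply, ihn, map_smul,
              Fr_of_F h.cry h.hq (h.cry.cycle _ _ _ ((h.model i).cycle k)), smul_smul, ← pow_succ]
        have h4 : (T.Fr (X i * productOf X Z L) ^ m) (T.cross (e i k) y) =
            (q : K) ^ (m * w) • T.cross (e i k) y := by
          rw [h2, h3, hy']
          unfold Crystals.cross
          rw [TensorProduct.smul_tmul_smul, map_smul, ← pow_mul, ← pow_add]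
          congr 2
          have : m * codim i k + m * (w - codim i k) = m * w := by
            rw [← mul_add, Nat.add_sub_cancel' hk]
          linarith [mul_comm m (codim i k)]
        exact h4


theorem cross_zero {X Y : 𝒱} (x : T.H X) : T.cross x (0 : T.H Y) = 0 := by
  unfold Crystals.cross
  rw [TensorProduct.tmul_zero, map_zero]

theorem cross_add {X Y : 𝒱} (x : T.H X) (y y' : T.H Y) :
    T.cross x (y + y') = T.cross x y + T.cross x y' := by
  unfold Crystals.cross
  rw [TensorProduct.tmul_add, map_add]

theorem cross_smul {X Y : 𝒱} (x : T.H X) (a : K) (y : T.H Y) :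
    T.cross x (a • y) = a • T.cross x y := by
  unfold Crystals.cross
  rw [TensorProduct.tmul_smul, map_smul]

/-- products with a class, for spans over the fixed field -/
theorem cross_mem {X Y : 𝒱} {x : T.H X} {A : Set (T.H Y)} {B : Set (T.H (X * Y))}
    (h : ∀ y ∈ A, T.cross x y ∈ B) {y : T.H Y} (hy : y ∈ Submodule.span (fixedField s) A) :
    T.cross x y ∈ Submodule.span (fixedField s) B := by
  refine Submodule.span_induction
    (p := fun y _ => T.cross x y ∈ Submodule.span (fixedField s) B) ?_ ?_ ?_ ?_ hy
  · intro y hy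
    exact Submodule.subset_span (h y hy)
  · show T.cross x 0 ∈ _
    rw [cross_zero]
    exact Submodule.zero_mem _
  · intro y y' _ _ hy hy'
    show T.cross x (y + y') ∈ _
    rw [cross_add]
    exact Submodule.add_mem _ hy hy'
  · intro a y _ hy
    show T.cross x (a • y) ∈ _
    have h1 : T.cross x (a • y) = a • T.cross x y := cross_smul x (a : K) y
    rw [h1]
    exact Submodule.smul_mem _ a hy

theorem cross_memK {X Y : 𝒱} {x : T.H X} {A : Set (T.H Y)} {B : Set (T.H (X * Y))}
    (h : ∀ y ∈ A, T.cross x y ∈ B) {y : T.H Y} (hy : y ∈ Submodule.span K A) :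
    T.cross x y ∈ Submodule.span K B := by
  refine Submodule.span_induction
    (p := fun y _ => T.cross x y ∈ Submodule.span K B) ?_ ?_ ?_ ?_ hy
  · intro y hy
    exact Submodule.subset_span (h y hy)
  · show T.cross x 0 ∈ _
    rw [cross_zero]
    exact Submodule.zero_mem _
  · intro y y' _ _ hy hy'
    show T.cross x (y + y') ∈ _
    rw [cross_add]
    exact Submodule.add_mem _ hy hy'
  · intro a y _ hy
    show T.cross x (a • y) ∈ _
    rw [cross_smul]
    exact Submodule.smul_mem _ a hy

/-- slant products, for spans over the fixed field -/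
theorem slant_mem {X Y : 𝒱} {l : T.H X →ₗ[K] K} {A : Set (T.H (X * Y))} {B : Set (T.H Y)}
    (h : ∀ z ∈ A, T.slant l Y z ∈ B) {z : T.H (X * Y)}
    (hz : z ∈ Submodule.span (fixedField s) A) :
    T.slant l Y z ∈ Submodule.span (fixedField s) B := by
  refine Submodule.span_induction
    (p := fun z _ => T.slant l Y z ∈ Submodule.span (fixedField s) B) ?_ ?_ ?_ ?_ hz
  · intro z hz
    exact Submodule.subset_span (h z hz)
  · show T.slant l Y 0 ∈ _
    rw [map_zero]
    exact Submodule.zero_mem _
  · intro y y' _ _ hy hy'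
    show T.slant l Y (y + y') ∈ _
    rw [map_add]
    exact Submodule.add_mem _ hy hy'
  · intro a y _ hy
    show T.slant l Y (a • y) ∈ _
    have h1 : T.slant l Y (a • y) = a • T.slant l Y y := map_smul _ (a : K) y
    rw [h1]
    exact Submodule.smul_mem _ a hy

theorem slant_memK {X Y : 𝒱} {l : T.H X →ₗ[K] K} {A : Set (T.H (X * Y))} {B : Set (T.H Y)}
    (h : ∀ z ∈ A, T.slant l Y z ∈ B) {z : T.H (X * Y)} (hz : z ∈ Submodule.span K A) :
    T.slant l Y z ∈ Submodule.span K B := by
  refine Submodule.span_induction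
    (p := fun z _ => T.slant l Y z ∈ Submodule.span K B) ?_ ?_ ?_ ?_ hz
  · intro z hz
    exact Submodule.subset_span (h z hz)
  · show T.slant l Y 0 ∈ _
    rw [map_zero]
    exact Submodule.zero_mem _
  · intro y y' _ _ hy hy'
    show T.slant l Y (y + y') ∈ _
    rw [map_add]
    exact Submodule.add_mem _ hy hy'
  · intro a y _ hy
    show T.slant l Y (a • y) ∈ _
    rw [map_smul]
    exact Submodule.smul_mem _ a hy

/-- the components of an eigenvector of the semilinear Frobenius -/
theorem comp_eigF (h : Data T s c f q C X Z codim e l W Φ) {i : ι} {L : List ι}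
    (hL : (i :: L).Nodup) {w : ℕ} {x : T.H (X i * productOf X Z L)}
    (hx : T.F (X i * productOf X Z L) x = (c : K) ^ w • x) :
    x = ∑ k, T.cross (e i k) (T.slant (l i k) (productOf X Z L) x) ∧
      ∀ k, (codim i k ≤ w → T.F (productOf X Z L) (T.slant (l i k) _ x) =
          (c : K) ^ (w - codim i k) • T.slant (l i k) _ x) ∧
        (w < codim i k → T.slant (l i k) (productOf X Z L) x = 0) := by
  obtain ⟨h1, h2⟩ := comp_eig h hL (m := 1) one_pos (w := w) (x := x)
    (by rw [pow_one, one_mul]; exact Fr_of_F h.cry h.hq hx)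
  refine ⟨h1, fun k => ⟨fun hk => ?_, (h2 k).2⟩⟩
  have h3 := slant_F h.cry (h.model i) (h.rest i) k (productOf X Z L) x
  rw [hx, map_smul] at h3
  have h4 : (c : K) ^ codim i k ≠ 0 := pow_ne_zero _ h.c0
  refine smul_right_injective _ h4 ?_
  show (c : K) ^ codim i k • _ = (c : K) ^ codim i k • _
  rw [← h3, smul_smul, ← pow_add, Nat.add_sub_cancel' hk]

/-- part 2 -/
theorem fixed_classes (h : Data T s c f q C X Z codim e l W Φ) :
    ∀ L : List ι, L.Nodup → ∀ (w : ℕ) (x : T.H (productOf X Z L)),
      T.F (productOf X Z L) x = (c : K) ^ w • x ↔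
        x ∈ Submodule.span (fixedField s) (T.products codim e
          (fun w z => T.F Z z = (c : K) ^ w • z) L w) := by
  have key : ∀ (V : 𝒱) (w : ℕ) (A : Set (T.H V)), (∀ y ∈ A, T.F V y = (c : K) ^ w • y) →
      ∀ x ∈ Submodule.span (fixedField s) A, T.F V x = (c : K) ^ w • x := by
    intro V w A hA x hx
    refine Submodule.span_induction (p := fun x _ => T.F V x = (c : K) ^ w • x) ?_ ?_ ?_ ?_ hx
    · exact fun y hy => hA y hy
    · show T.F V 0 = (c : K) ^ w • (0 : T.H V)
      rw [F_zero h.cry, smul_zero]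
    · intro y y' _ _ hy hy'
      show T.F V (y + y') = (c : K) ^ w • (y + y')
      rw [h.cry.add, hy, hy', smul_add]
    · intro a y _ hy
      show T.F V ((a : K) • y) = (c : K) ^ w • ((a : K) • y)
      have h1 : s (a : K) = a := a.2
      rw [h.cry.smul, h1, hy, smul_comm]
  intro L
  induction L with
  | nil =>
    intro _ w x
    constructor
    · intro hx
      exact Submodule.subset_span hx
    · intro hx
      exact key Z w _ (fun y hy => hy) x hx
  | cons i L ih =>
    intro hL w x
    obtain ⟨hiL, hL'⟩ := List.nodup_cons.1 hL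
    constructor
    · intro hx
      obtain ⟨h1, h2⟩ := comp_eigF h hL (x := x) hx
      rw [h1]
      refine Submodule.sum_mem _ fun k _ => ?_
      rcases Nat.lt_or_ge w (codim i k) with hk | hk
      · rw [(h2 k).2 hk, cross_zero]
        exact Submodule.zero_mem _
      · have h3 := (ih hL' (w - codim i k) _).1 ((h2 k).1 hk)
        exact cross_mem (B := T.products codim e (fun w z => T.F Z z = (c : K) ^ w • z) (i :: L) w)
          (fun y hy => ⟨k, y, hk, hy, rfl⟩) h3
    · intro hx
      refine key (X i * productOf X Z L) w _ ?_ x hx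
      rintro _ ⟨k, y, hk, hy, rfl⟩
      have hy' := (ih hL' (w - codim i k) y).2 (Submodule.subset_span hy)
      rw [h.cry.cross, h.cry.cycle _ _ _ ((h.model i).cycle k), hy']
      unfold Crystals.cross
      rw [TensorProduct.smul_tmul_smul, map_smul, ← pow_add, Nat.add_sub_cancel' hk]

/-- part 3 -/
theorem tate_iff (h : Data T s c f q C X Z codim e l W Φ) :
    ∀ L : List ι, L.Nodup → (T.Tate q (productOf X Z L) ↔ T.Tate q Z) := by
  intro L
  induction L with
  | nil => intro _; exact Iff.rfl
  | cons i L ih =>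
    intro hL
    rw [← ih (List.nodup_cons.1 hL).2]
    constructor
    · intro hT w b hb
      obtain ⟨k⟩ := (h.model i).nonempty
      have h1 : T.Fr (X i * productOf X Z L) (T.cross (e i k) b) =
          (q : K) ^ (codim i k + w) • T.cross (e i k) b := by
        rw [Fr_cross h.cry, Fr_of_F h.cry h.hq (h.cry.cycle _ _ _ ((h.model i).cycle k)), hb]
        unfold Crystals.cross
        rw [TensorProduct.smul_tmul_smul, map_smul, pow_add]
      have h2 := hT (codim i k + w) _ h1
      have h3 := slant_memK (l := l i k) (B := T.cycles (productOf X Z L) w) (fun z hz => by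
        have h4 := ((h.model i).slant k _ _ z hz).1 (Nat.le_add_right _ _)
        rwa [Nat.add_sub_cancel_left] at h4) h2
      rwa [slant_cross, (h.model i).dual, if_pos rfl, one_smul] at h3
    · intro hT w x hx
      obtain ⟨h1, h2⟩ := comp_eig h hL (m := 1) one_pos (w := w) (x := x)
        (by rw [pow_one, one_mul]; exact hx)
      rw [h1]
      refine Submodule.sum_mem _ fun k _ => ?_
      rcases Nat.lt_or_ge w (codim i k) with hk | hk
      · rw [(h2 k).2 hk, cross_zero]
        exact Submodule.zero_mem _
      · have h3 := (h2 k).1 hk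
        rw [pow_one, one_mul] at h3
        refine cross_memK (fun y hy => ?_) (hT _ _ h3)
        have h4 := h.cry.mul _ _ _ _ _ ((h.model i).cycle k) y hy
        rwa [Nat.add_sub_cancel' hk] at h4

/-- part 4 -/
theorem fixed_iff (h : Data T s c f q C X Z codim e l W Φ) :
    ∀ L : List ι, L.Nodup → (T.TateFixed s c (productOf X Z L) ↔ T.TateFixed s c Z) := by
  intro L
  induction L with
  | nil => intro _; exact Iff.rfl
  | cons i L ih =>
    intro hL
    rw [← ih (List.nodup_cons.1 hL).2]
    constructor
    · intro hT w b hb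
      obtain ⟨k⟩ := (h.model i).nonempty
      have h1 : T.F (X i * productOf X Z L) (T.cross (e i k) b) =
          (c : K) ^ (codim i k + w) • T.cross (e i k) b := by
        rw [h.cry.cross, h.cry.cycle _ _ _ ((h.model i).cycle k), hb]
        unfold Crystals.cross
        rw [TensorProduct.smul_tmul_smul, map_smul, pow_add]
      have h2 := hT (codim i k + w) _ h1
      have h3 := slant_mem (l := l i k) (B := T.cycles (productOf X Z L) w) (fun z hz => by
        have h4 := ((h.model i).slant k _ _ z hz).1 (Nat.le_add_right _ _)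
        rwa [Nat.add_sub_cancel_left] at h4) h2
      rwa [slant_cross, (h.model i).dual, if_pos rfl, one_smul] at h3
    · intro hT w x hx
      obtain ⟨h1, h2⟩ := comp_eigF h hL (x := x) hx
      rw [h1]
      refine Submodule.sum_mem _ fun k _ => ?_
      rcases Nat.lt_or_ge w (codim i k) with hk | hk
      · rw [(h2 k).2 hk, cross_zero]
        exact Submodule.zero_mem _
      · refine cross_mem (fun y hy => ?_) (hT _ _ ((h2 k).1 hk))
        have h4 := h.cry.mul _ _ _ _ _ ((h.model i).cycle k) y hy
        rwa [Nat.add_sub_cancel' hk] at h4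

end main

end Pool.Agent.U222.CR
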