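import Pool.Agent.U222.SL.Defs

/-!
# Crystalline cohomology of products of varieties over a finite field
-/

set_option autoImplicit false

open Finset TensorProduct

namespace Pool.Agent.U222.CR.Pub

open Pool.Agent.U222.SL

section modules

variable {K A B M : Type} [Field K] [AddCommGroup A] [Module K A] [AddCommGroup B] [Module K B]
  [AddCommGroup M] [Module K M]

/-- The product of two classes, `k` is the isomorphism of Künneth. -/
noncomputable def cross (k : A ⊗[K] B ≃ₗ[K] M) (x : A) (y : B) : M := k (x ⊗ₜ y)

/-- The product of a linear form on `A` and of the identity of `B`. -/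
noncomputable def contraction (l : A →ₗ[K] K) (t : A ⊗[K] B) : K ⊗[K] B := l.rTensor B t

/-- The map `H (X × Y) → H Y` given by a linear form on `H X`. -/
noncomputable def slant (k : A ⊗[K] B ≃ₗ[K] M) (l : A →ₗ[K] K) (z : M) : B :=
  TensorProduct.lid K B (contraction l (k.symm z))

/-- `F` is additive and semilinear with respect to `s`. -/
def IsSemilinear (s : K ≃+* K) (F : M → M) : Prop :=
  (∀ x y, F (x + y) = F x + F y) ∧ ∀ (a : K) x, F (a • x) = s a • F x

/-- The complexification of an endomorphism. -/
noncomputable abbrev complexified [Algebra K ℂ] (φ : Module.End K M) : Module.End ℂ (ℂ ⊗[K] M) :=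
  φ.baseChange ℂ

/-- The difference of `x` and of the combination of the `e k` with the coordinates `l k x`. -/
def remainder {I : Type} [Fintype I] (e : I → A) (l : I → A →ₗ[K] K) (x : A) : A :=
  x - ∑ k, l k x • e k

/-- The `l k` are dual to the `e k`. -/
def IsDual {I : Type} [DecidableEq I] (e : I → A) (l : I → A →ₗ[K] K) : Prop :=
  ∀ k k', l k (e k') = if k = k' then 1 else 0

/-- `Φ` and `g` are, after complexification, the Frobenius and the generator of the covering group on the
part without invariants of the cohomology of a model of the cyclic covering `C`; this part is pure of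
weight `n`. -/
def IsCoveringAction [Algebra K ℂ] {κ : Type} [Field κ] [Fintype κ] (C : Covering κ)
    (Φ g : Module.End K M) : Prop :=
  IsCyclicCovering C (complexified Φ) (complexified g) ∧
    ∀ α, (complexified Φ).HasEigenvalue α → ‖α‖ ^ 2 = (Fintype.card κ : ℝ) ^ C.n

/-- The submodule `W` is stable under `F` and `Fr`, and `Φ` is the restriction of `Fr`. -/
def IsRestriction (F : A → A) (Fr : Module.End K A) (W : Submodule K A) (Φ : Module.End K W) : Prop :=
  ∀ x : W, F x ∈ W ∧ Fr x = Φ x

/-- `W` is the part without invariants of the cohomology `A` of a model of the cyclic covering `C`, with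
the linear Frobenius `Φ` and the generator `g` of the covering group. -/
structure IsCoveringPart [Algebra K ℂ] {κ : Type} [Field κ] [Fintype κ] (C : Covering κ)
    (F : A → A) (Fr : Module.End K A) {I : Type} [Fintype I] (e : I → A) (l : I → A →ₗ[K] K)
    (W : Submodule K A) (Φ g : Module.End K W) : Prop where
  stable : IsRestriction F Fr W Φ
  coordinate : ∀ k, ∀ x ∈ W, l k x = 0
  mem : ∀ x, remainder e l x ∈ W
  covering : IsCoveringAction C Φ g

/-- The classes `x` with `Fr ^ m x = q ^ (m w) x`. -/
def linearClasses (Fr : Module.End K M) (q m w : ℕ) : Set M :=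
  {x | (Fr ^ m) x = (q : K) ^ (m * w) • x}

/-- The classes `x` with `F x = c ^ w x`. -/
def fixedClasses (K : Type) [Field K] [Module K M] (F : M → M) (c w : ℕ) : Set M :=
  {x | F x = (c : K) ^ w • x}

/-- The subfield of the elements of `K` fixed by `s`. If `K` is the field of fractions of the Witt vectors of a
finite field and `s` the Frobenius automorphism, this is the field `ℚ_p`. -/
def fixedField (s : K ≃+* K) : Subfield K :=
  RingHom.eqLocusField (s : K →+* K) (RingHom.id K)

/-- The linear combinations of the elements of a set with coefficients in the fixed field. -/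
def fixedSpan (s : K ≃+* K) (S : Set M) : Set M :=
  (Submodule.span (fixedField s) S : Set M)

end modules

/-- The product `X_{i_1} × (X_{i_2} × (⋯ × Z))`, for a list of indices. -/
def productOf {𝒱 : Type} [Mul 𝒱] {ι : Type} (X : ι → 𝒱) (Z : 𝒱) : List ι → 𝒱
  | [] => Z
  | i :: L => X i * productOf X Z L

section theory

variable (K : Type) {𝒱 : Type} (H : 𝒱 → Type) [Field K] [Mul 𝒱] [∀ X, AddCommGroup (H X)]
  [∀ X, Module K (H X)]

/-- The crystalline cohomology `H X` of the varieties `X` of a class closed under products, vector
spaces over the field of fractions `K` of the Witt vectors: the crystalline Frobenius `F`, its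
power `Fr` which is linear over `K`, the isomorphisms of Künneth, and the classes of the algebraic cycles
of codimension `i`. -/
structure Crystals : Type where
  F : ∀ X, H X → H X
  Fr : ∀ X, Module.End K (H X)
  kunneth : ∀ X Y, H X ⊗[K] H Y ≃ₗ[K] H (X * Y)
  cycles : ∀ X, ℕ → Set (H X)

variable {K H}

/-- The crystalline Frobenius is semilinear with respect to the automorphism `s` of `K`, its `f`-th power
is `Fr`, it is compatible with products, and it multiplies the classes of the cycles of
codimension `i` by `c ^ i`; products of cycles are cycles. -/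
structure Crystals.IsCrystalline (T : Crystals K H) (s : K ≃+* K) (c f : ℕ) : Prop where
  semilinear : ∀ X, IsSemilinear s (T.F X)
  iterate : ∀ X x, T.Fr X x = (T.F X)^[f] x
  cross : ∀ X Y (x : H X) (y : H Y),
    T.F (X * Y) (cross (T.kunneth X Y) x y) = cross (T.kunneth X Y) (T.F X x) (T.F Y y)
  cycle : ∀ X i, T.cycles X i ⊆ fixedClasses K (T.F X) c i
  mul : ∀ X Y i j, ∀ x ∈ T.cycles X i, ∀ y ∈ T.cycles Y j,
    Pub.cross (T.kunneth X Y) x y ∈ T.cycles (X * Y) (i + j)

/-- The linear form `l` on `H X` is given by the intersection with an algebraic cycle, of complementary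
codimension to `d`: the slant products map classes of cycles to classes of cycles. -/
def Crystals.IsAlgebraic (T : Crystals K H) {X : 𝒱} (l : H X →ₗ[K] K) (d : ℕ) : Prop :=
  ∀ Y w, ∀ z ∈ T.cycles (X * Y) w, (d ≤ w → slant (T.kunneth X Y) l z ∈ T.cycles Y (w - d)) ∧
    (w < d → slant (T.kunneth X Y) l z = 0)

/-- A smooth projective model `X` of a cyclic covering: the cohomology of `X` is the direct sum of the
lines of the classes `e k` of algebraic cycles of codimension `codim k` and of a part `W`, which is pure
of weight `n` and has no invariants under the generator `g` of the covering group, with the trace formula;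
the coordinates `l k` of `e k` are given by algebraic cycles. -/
structure Crystals.IsModel (T : Crystals K H) [Algebra K ℂ] {κ : Type} [Field κ] [Fintype κ]
    (C : Covering κ) (X : 𝒱) {I : Type} [Fintype I] [DecidableEq I] (codim : I → ℕ) (e : I → H X)
    (l : I → H X →ₗ[K] K) : Prop where
  nonempty : Nonempty I
  cycle : ∀ k, e k ∈ T.cycles X (codim k)
  algebraic : ∀ k, T.IsAlgebraic (l k) (codim k)
  dual : IsDual e l
  part : ∃ (W : Submodule K (H X)) (Φ g : Module.End K W),
    IsCoveringPart C (T.F X) (T.Fr X) e l W Φ g

/-- The products `e_{k_1} × (e_{k_2} × (⋯ × z))` of classes of cycles on the `X_i` and of a class `z` on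
`Z` in `P (w - codim)`, where `codim` is the sum of the codimensions of the `e_{k_i}`. -/
def Crystals.products (T : Crystals K H) {ι : Type} {X : ι → 𝒱} {Z : 𝒱} {I : ι → Type}
    (codim : ∀ i, I i → ℕ) (e : ∀ i, I i → H (X i)) (P : ℕ → Set (H Z)) :
    ∀ (L : List ι), ℕ → Set (H (productOf X Z L))
  | [], w => P w
  | i :: L, w => {x | ∃ (k : I i) (y : H (productOf X Z L)), codim i k ≤ w ∧
      y ∈ T.products codim e P L (w - codim i k) ∧
      cross (T.kunneth (X i) (productOf X Z L)) (e i k) y = x}

/-- The crystalline Tate conjecture for `X`, in the form which is linear over `K`: in all codimensions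
`w` the space of the classes `x` with `Fr x = q ^ w x` is spanned over `K` by the classes of algebraic
cycles. -/
def Crystals.Tate (T : Crystals K H) (q : ℕ) (X : 𝒱) : Prop :=
  ∀ w, ∀ x ∈ linearClasses (T.Fr X) q 1 w, x ∈ Submodule.span K (T.cycles X w)

/-- The crystalline Tate conjecture for `X`, in the form over the fixed field of `s`: in all
codimensions `w` the classes `x` with `F x = c ^ w x` are linear combinations of classes of algebraic cycles
with coefficients in the fixed field. -/
def Crystals.TateFixed (T : Crystals K H) (s : K ≃+* K) (c : ℕ) (X : 𝒱) : Prop :=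
  ∀ w, ∀ x ∈ fixedClasses K (T.F X) c w, x ∈ fixedSpan s (T.cycles X w)

/-- The product `V` of `Z` and of the `X_i` with the indices in the list `L`: the classes with
`Fr ^ m x = q ^ (m w) x` are the linear combinations over `K` of the products of the classes of cycles
on the `X_i` and of such classes on `Z`; those with `F x = c ^ w x` are the combinations over the fixed
field of such products; and both forms of the crystalline Tate conjecture hold for `V` if and only if
they hold for `Z`. -/
def Crystals.ComesFrom (T : Crystals K H) (s : K ≃+* K) (c q : ℕ) {ι : Type} (X : ι → 𝒱) (Z : 𝒱)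
    {I : ι → Type} (codim : ∀ i, I i → ℕ) (e : ∀ i, I i → H (X i)) (L : List ι) : Prop :=
  (∀ m w : ℕ, 0 < m → linearClasses (T.Fr (productOf X Z L)) q m w =
      (Submodule.span K (T.products codim e (linearClasses (T.Fr Z) q m) L w) : Set _)) ∧
    (∀ w, fixedClasses K (T.F (productOf X Z L)) c w =
      fixedSpan s (T.products codim e (fixedClasses K (T.F Z) c) L w)) ∧
    (T.Tate q (productOf X Z L) ↔ T.Tate q Z) ∧
    (T.TateFixed s c (productOf X Z L) ↔ T.TateFixed s c Z)

end theory

/-- `IsSeparated` for a common multiple `N` of the degrees, or `N` is the product of the degrees, which are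
different large prime numbers dividing `c - 1`. -/
def IsAdmissibleFamily {κ : Type} [Field κ] {ι : Type} [Fintype ι] (C : ι → Covering κ)
    (c f N lam b : ℕ) : Prop :=
  (∀ i, (C i).IsAdmissible) ∧
    ((0 < N ∧ (∀ i, (C i).N ∣ N) ∧ IsSeparated C c f N lam b) ∨
      (N = ∏ i, (C i).N ∧ (∀ i, (C i).IsLarge lam b) ∧ (∀ i, c % (C i).N = 1) ∧
        ∀ i i', i ≠ i' → (C i).N ≠ (C i').N))

/-- The condition on `Z`: the cohomology is pure, and every eigenvalue has few conjugates of small
slope or few factors over the field of roots of unity of order `N`; or all eigenvalues have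
degree at most `2 b + 1`; or the level is at most `lam`. -/
def IsAdmissibleFactor (c : ℕ) [Fact c.Prime] (q N lam b : ℕ) {B : Type} [AddCommGroup B]
    [Module ℂ B] (Φ : Module.End ℂ B) : Prop :=
  IsPure q Φ ∧ (HasFewSlopes c q N lam b Φ ∨ HasDegreesAtMost (2 * b + 1) Φ ∨ IsOfLevel q lam Φ)

end Pool.Agent.U222.CR.Pub
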