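import Pool.Agent.U222.CR.Lin
import Pool.Agent.U222.SL.NR
import Pool.Agent.U222.SL.FinF

/-!
# One factor
-/

set_option autoImplicit false

open Finset TensorProduct

namespace Pool.Agent.U222.CR

open Pool.Agent.U222.SL Pool.Agent.N876.FL
open Pool.Agent.U222.CR.Pub (productOf fixedField complexified)

section step

variable {K 𝒱 : Type} [Field K] [Mul 𝒱] {T : Crystals K 𝒱} {s : K ≃+* K} {c f : ℕ}

theorem F_zero (hT : T.IsCrystalline s c f) (X : 𝒱) : T.F X 0 = 0 := by
  have h := hT.smul X 0 0
  rwa [zero_smul, map_zero, zero_smul] at h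

/-- the Frobenius as an additive map -/
def Fa (hT : T.IsCrystalline s c f) (X : 𝒱) : T.H X →+ T.H X :=
  ⟨⟨T.F X, F_zero hT X⟩, hT.add X⟩

theorem s_pow (s : K ≃+* K) (a w : ℕ) : s ((a : K) ^ w) = (a : K) ^ w := by
  rw [map_pow, map_natCast]

theorem iter_eig (hT : T.IsCrystalline s c f) {X : 𝒱} {x : T.H X} {w : ℕ}
    (h : T.F X x = (c : K) ^ w • x) (n : ℕ) : (T.F X)^[n] x = ((c : K) ^ w) ^ n • x := by
  induction n with
  | zero => rw [Function.iterate_zero, pow_zero, one_smul]; rfl
  | succ n ih =>
    rw [Function.iterate_succ', Function.comp_apply, ih, hT.smul, h, smul_smul, map_pow, s_pow,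
      ← pow_succ]

theorem Fr_of_F (hT : T.IsCrystalline s c f) {q : ℕ} (hq : q = c ^ f) {X : 𝒱} {x : T.H X} {w : ℕ}
    (h : T.F X x = (c : K) ^ w • x) : T.Fr X x = (q : K) ^ w • x := by
  rw [hT.iterate, iter_eig hT h, hq, Nat.cast_pow, ← pow_mul, ← pow_mul, mul_comm]

theorem iter_cross (hT : T.IsCrystalline s c f) {X Y : 𝒱} (x : T.H X) (y : T.H Y) (n : ℕ) :
    (T.F (X * Y))^[n] (T.cross x y) = T.cross ((T.F X)^[n] x) ((T.F Y)^[n] y) := by
  induction n with
  | zero => rfl
  | succ n ih =>
    rw [Function.iterate_succ', Function.comp_apply, ih, hT.cross, Function.iterate_succ',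
      Function.comp_apply, Function.iterate_succ', Function.comp_apply]

theorem Fr_cross (hT : T.IsCrystalline s c f) {X Y : 𝒱} (x : T.H X) (y : T.H Y) :
    T.Fr (X * Y) (T.cross x y) = T.cross (T.Fr X x) (T.Fr Y y) := by
  rw [hT.iterate, iter_cross hT, hT.iterate, hT.iterate]

theorem Fr_kun (hT : T.IsCrystalline s c f) (X Y : 𝒱) (u : T.H (X * Y)) :
    (T.kunneth X Y).symm (T.Fr (X * Y) u) =
      TensorProduct.map (T.Fr X) (T.Fr Y) ((T.kunneth X Y).symm u) := by
  obtain ⟨t, rfl⟩ := (T.kunneth X Y).surjective u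
  rw [LinearEquiv.symm_apply_apply]
  induction t using TensorProduct.induction_on with
  | zero => simp only [map_zero]
  | add x y hx hy => simp only [map_add, hx, hy]
  | tmul x y =>
    have h := Fr_cross hT x y
    unfold Crystals.cross at h
    rw [h, LinearEquiv.symm_apply_apply, TensorProduct.map_tmul]

theorem slant_cross {X Y : 𝒱} (l : T.H X →ₗ[K] K) (x : T.H X) (y : T.H Y) :
    T.slant l Y (T.cross x y) = l x • y := by
  unfold Crystals.slant Crystals.cross
  simp

/-- additive induction on a product -/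
theorem cross_ind {X Y : 𝒱} {P : T.H (X * Y) → Prop} (h0 : P 0)
    (ha : ∀ x y, P x → P y → P (x + y)) (hc : ∀ x y, P (T.cross x y)) (u : T.H (X * Y)) : P u := by
  obtain ⟨t, rfl⟩ := (T.kunneth X Y).surjective u
  induction t using TensorProduct.induction_on with
  | zero => rw [map_zero]; exact h0
  | add x y hx hy => rw [map_add]; exact ha _ _ hx hy
  | tmul x y => exact hc x y

variable [Algebra K ℂ] {κ : Type} [Field κ] [Fintype κ] {C : Covering κ} {X : 𝒱} {I : Type}
  [Fintype I] [DecidableEq I] {codim : I → ℕ} {e : I → T.H X} {l : I → T.H X →ₗ[K] K}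

/-- the part without invariants -/
structure Rest (T : Crystals K 𝒱) (X : 𝒱) (e : I → T.H X) (l : I → T.H X →ₗ[K] K)
    (W : Submodule K (T.H X)) (Φ : Module.End K W) : Prop where
  st : ∀ x : W, T.F X x ∈ W ∧ T.Fr X x = Φ x
  van : ∀ k, ∀ x ∈ W, l k x = 0
  mem : ∀ x, x - ∑ k, l k x • e k ∈ W

variable {W : Submodule K (T.H X)} {Φ : Module.End K W}

/-- the projection on the part without invariants -/
noncomputable def prj (h : Rest T X e l W Φ) : T.H X →ₗ[K] W :=
  LinearMap.codRestrict W (LinearMap.id - ∑ k, (l k).smulRight (e k)) fun x => by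
    have h1 := h.mem x
    simpa using h1

theorem prj_val (h : Rest T X e l W Φ) (x : T.H X) :
    ((prj h x : W) : T.H X) = x - ∑ k, l k x • e k := by
  unfold prj
  simp

theorem l_F (hT : T.IsCrystalline s c f) (hX : T.IsModel C X codim e l)
    (h : Rest T X e l W Φ) (k : I) (x : T.H X) :
    l k (T.F X x) = (c : K) ^ codim k * s (l k x) := by
  have h1 : x = ∑ k, l k x • e k + (prj h x : T.H X) := by
    rw [prj_val]
    abel
  have h2 : T.F X x = ∑ k, (s (l k x) * (c : K) ^ codim k) • e k + T.F X (prj h x) := by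
    conv_lhs => rw [h1]
    rw [hT.add]
    congr 1
    have h3 := map_sum (Fa hT X) (fun k => l k x • e k) univ
    refine h3.trans (sum_congr rfl fun k _ => ?_)
    show T.F X (l k x • e k) = _
    rw [hT.smul, hT.cycle X _ _ (hX.cycle k), smul_smul]
  rw [h2, map_add, h.van k _ (h.st _).1, add_zero, map_sum, sum_eq_single k]
  · rw [map_smul, hX.dual k k, if_pos rfl, smul_eq_mul, mul_one, mul_comm]
  · intro k' _ hk
    rw [map_smul, hX.dual k k', if_neg (Ne.symm hk), smul_zero]
  · intro hk
    exact absurd (mem_univ k) hk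

theorem l_iter (hT : T.IsCrystalline s c f) (hX : T.IsModel C X codim e l)
    (h : Rest T X e l W Φ) (k : I) (n : ℕ) (x : T.H X) :
    l k ((T.F X)^[n] x) = ((c : K) ^ codim k) ^ n * (s : K → K)^[n] (l k x) := by
  induction n with
  | zero => rw [Function.iterate_zero, Function.iterate_zero, pow_zero, one_mul]; rfl
  | succ n ih =>
    rw [Function.iterate_succ', Function.comp_apply, l_F hT hX h, ih, map_mul, map_pow, s_pow,
      Function.iterate_succ', Function.comp_apply, pow_succ]
    ring

theorem l_Fr (hT : T.IsCrystalline s c f) {q : ℕ} (hq : q = c ^ f) (hX : T.IsModel C X codim e l)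
    (h : Rest T X e l W Φ) (k : I) (x : T.H X) :
    l k (T.Fr X x) = (q : K) ^ codim k * l k x := by
  have h1 : x = ∑ k, l k x • e k + (prj h x : T.H X) := by
    rw [prj_val]
    abel
  have h2 : T.Fr X x = ∑ k, (l k x * (q : K) ^ codim k) • e k + T.Fr X (prj h x) := by
    conv_lhs => rw [h1]
    rw [map_add, map_sum]
    congr 1
    refine sum_congr rfl fun k _ => ?_
    rw [map_smul, Fr_of_F hT hq (hT.cycle X _ _ (hX.cycle k)), smul_smul]
  rw [h2, map_add, (h.st _).2, h.van k _ (Φ (prj h x)).2, add_zero, map_sum, sum_eq_single k]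
  · rw [map_smul, hX.dual k k, if_pos rfl, smul_eq_mul, mul_one, mul_comm]
  · intro k' _ hk
    rw [map_smul, hX.dual k k', if_neg (Ne.symm hk), smul_zero]
  · intro hk
    exact absurd (mem_univ k) hk

theorem prj_Fr (hT : T.IsCrystalline s c f) {q : ℕ} (hq : q = c ^ f)
    (hX : T.IsModel C X codim e l) (h : Rest T X e l W Φ) (x : T.H X) :
    prj h (T.Fr X x) = Φ (prj h x) := by
  apply Subtype.ext
  rw [prj_val, ← (h.st _).2, prj_val, map_sub, map_sum]
  congr 1
  refine sum_congr rfl fun k _ => ?_
  rw [l_Fr hT hq hX h, map_smul, Fr_of_F hT hq (hT.cycle X _ _ (hX.cycle k)), smul_smul, mul_comm]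

theorem slant_Fr (hT : T.IsCrystalline s c f) {q : ℕ} (hq : q = c ^ f)
    (hX : T.IsModel C X codim e l) (h : Rest T X e l W Φ) (k : I) (B : 𝒱) (u : T.H (X * B)) :
    T.slant (l k) B (T.Fr (X * B) u) = (q : K) ^ codim k • T.Fr B (T.slant (l k) B u) := by
  induction u using cross_ind with
  | h0 => simp only [map_zero, smul_zero]
  | ha x y hx hy => simp only [map_add, smul_add, hx, hy]
  | hc x y =>
    rw [Fr_cross hT, slant_cross, slant_cross, l_Fr hT hq hX h, map_smul, smul_smul]

theorem slant_F (hT : T.IsCrystalline s c f)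
    (hX : T.IsModel C X codim e l) (h : Rest T X e l W Φ) (k : I) (B : 𝒱) (u : T.H (X * B)) :
    T.slant (l k) B (T.F (X * B) u) = (c : K) ^ codim k • T.F B (T.slant (l k) B u) := by
  induction u using cross_ind with
  | h0 => simp only [F_zero hT, map_zero, smul_zero]
  | ha x y hx hy => simp only [hT.add, map_add, smul_add, hx, hy]
  | hc x y =>
    rw [hT.cross, slant_cross, slant_cross, l_F hT hX h, hT.smul, smul_smul]

/-- the decomposition of a class on a product -/
theorem decomp (h : Rest T X e l W Φ) (B : 𝒱) (u : T.H (X * B)) :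
    u = ∑ k, T.cross (e k) (T.slant (l k) B u) + T.kunneth X B
      (W.subtype.rTensor (T.H B) ((prj h).rTensor (T.H B) ((T.kunneth X B).symm u))) := by
  induction u using cross_ind with
  | h0 => simp [Crystals.cross]
  | ha x y hx hy =>
    conv_lhs => rw [hx, hy]
    simp only [map_add, Crystals.cross, TensorProduct.tmul_add, sum_add_distrib]
    abel
  | hc x y =>
    simp only [slant_cross]
    unfold Crystals.cross
    rw [LinearEquiv.symm_apply_apply, LinearMap.rTensor_tmul, LinearMap.rTensor_tmul]
    show _ = _ + T.kunneth X B (((prj h x : W) : T.H X) ⊗ₜ y)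
    rw [prj_val, TensorProduct.sub_tmul, map_sub, TensorProduct.sum_tmul, map_sum]
    have h1 : ∀ k, T.kunneth X B (e k ⊗ₜ[K] (l k x • y)) =
        T.kunneth X B ((l k x • e k) ⊗ₜ[K] y) := fun k => by
      rw [TensorProduct.smul_tmul]
    rw [sum_congr rfl fun k _ => h1 k]
    abel

/-- the component in the part without invariants vanishes -/
theorem rest_zero (hT : T.IsCrystalline s c f) {q : ℕ} (hq : q = c ^ f)
    (hX : T.IsModel C X codim e l) (h : Rest T X e l W Φ) (B : 𝒱) {u : T.H (X * B)} {m : ℕ} {μ : K}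
    (hu : (T.Fr (X * B) ^ m) u = μ • u)
    (hr : ∀ α β : ℂ, (complexified Φ).HasEigenvalue α → (complexified (T.Fr B)).HasEigenvalue β →
      (α * β) ^ m ≠ algebraMap K ℂ μ) :
    u = ∑ k, T.cross (e k) (T.slant (l k) B u) := by
  have h1 : ∀ u : T.H (X * B), (prj h).rTensor (T.H B) ((T.kunneth X B).symm (T.Fr (X * B) u)) =
      TensorProduct.map Φ (T.Fr B) ((prj h).rTensor (T.H B) ((T.kunneth X B).symm u)) := by
    intro u
    rw [Fr_kun hT]
    generalize (T.kunneth X B).symm u = t
    induction t using TensorProduct.induction_on with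
    | zero => simp only [map_zero]
    | add x y hx hy => simp only [map_add, hx, hy]
    | tmul x y =>
      rw [TensorProduct.map_tmul, LinearMap.rTensor_tmul, LinearMap.rTensor_tmul,
        TensorProduct.map_tmul, prj_Fr hT hq hX h]
  have h2 : ∀ (n : ℕ) (u : T.H (X * B)),
      (prj h).rTensor (T.H B) ((T.kunneth X B).symm ((T.Fr (X * B) ^ n) u)) =
      ((TensorProduct.map Φ (T.Fr B)) ^ n) ((prj h).rTensor (T.H B) ((T.kunneth X B).symm u)) := by
    intro n
    induction n with
    | zero => intro u; rfl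
    | succ n ih =>
      intro u
      rw [pow_succ', Module.End.mul_apply, h1, ih, pow_succ', Module.End.mul_apply]
  have h3 := tensor_zero (F := Φ) (G := T.Fr B) (m := m) (μ := μ)
    (u := (prj h).rTensor (T.H B) ((T.kunneth X B).symm u))
    (by rw [← h2, hu, map_smul, map_smul]) hr
  have h4 := decomp h B u
  rw [h3, map_zero, map_zero, add_zero] at h4
  exact h4

/-- the eigenvalues on a model -/
theorem eig_model (hT : T.IsCrystalline s c f) {q : ℕ} (hq : q = c ^ f)
    (hX : T.IsModel C X codim e l) (h : Rest T X e l W Φ) {α : ℂ}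
    (hα : (complexified (T.Fr X)).HasEigenvalue α) :
    (∃ k, α = (q : ℂ) ^ codim k) ∨ (complexified Φ).HasEigenvalue α := by
  obtain ⟨v, hv⟩ := hα.exists_hasEigenvector
  have hv1 := hv.apply_eq_smul
  by_cases h0 : (prj h).baseChange ℂ v = 0
  · left
    by_contra hne
    push Not at hne
    apply hv.2
    have h1 : ∀ k, ((l k).smulRight (e k)).baseChange ℂ v = 0 := by
      intro k
      by_contra hk
      have h2 : ∀ x, ((l k).smulRight (e k)) (T.Fr X x) =
          ((q : K) ^ codim k • (1 : Module.End K (T.H X))) (((l k).smulRight (e k)) x) := by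
        intro x
        show l k (T.Fr X x) • e k = (q : K) ^ codim k • (l k x • e k)
        rw [l_Fr hT hq hX h, smul_smul]
      obtain ⟨y, hy⟩ := (eig_image h2 hv1 hk).exists_hasEigenvector
      have h3 := hy.apply_eq_smul
      have h4 : complexified ((q : K) ^ codim k • (1 : Module.End K (T.H X))) y =
          (q : ℂ) ^ codim k • y := by
        show LinearMap.baseChange ℂ ((q : K) ^ codim k • LinearMap.id) y = _
        rw [LinearMap.baseChange_smul, LinearMap.baseChange_id]
        show (q : K) ^ codim k • y = _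
        rw [← algebraMap_smul ℂ, map_pow, map_natCast]
      rw [h4] at h3
      have h5 : ((q : ℂ) ^ codim k - α) • y = 0 := by rw [sub_smul, h3, sub_self]
      rcases smul_eq_zero.1 h5 with h6 | h6
      · exact hne k (sub_eq_zero.1 h6).symm
      · exact hy.2 h6
    have h2 : (LinearMap.id : Module.End K (T.H X)) =
        ∑ k, (l k).smulRight (e k) + W.subtype ∘ₗ prj h := by
      refine LinearMap.ext fun x => ?_
      show x = _
      rw [LinearMap.add_apply, LinearMap.comp_apply, Submodule.subtype_apply, prj_val]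
      simp
    have h3 : LinearMap.baseChange ℂ (LinearMap.id : Module.End K (T.H X)) v = v := by
      rw [LinearMap.baseChange_id]
      rfl
    rw [← h3, h2, LinearMap.baseChange_add, LinearMap.baseChange_comp, LinearMap.add_apply,
      LinearMap.comp_apply, h0, map_zero, add_zero]
    have h4 : ∀ (A : Finset I), LinearMap.baseChange ℂ (∑ k ∈ A, (l k).smulRight (e k)) v = 0 := by
      intro A
      induction A using Finset.induction_on with
      | empty => rw [sum_empty, LinearMap.baseChange_zero]; rfl
      | insert k A hk ih => rw [sum_insert hk, LinearMap.baseChange_add, LinearMap.add_apply, ih,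
          h1 k, add_zero]
    exact h4 univ
  · right
    exact eig_image (prj_Fr hT hq hX h) hv1 h0

/-- the eigenvalues on a product -/
theorem eig_prod (hT : T.IsCrystalline s c f) {X B : 𝒱} {γ : ℂ}
    (h : (complexified (T.Fr (X * B))).HasEigenvalue γ) :
    ∃ α β : ℂ, (complexified (T.Fr X)).HasEigenvalue α ∧ (complexified (T.Fr B)).HasEigenvalue β ∧
      γ = α * β := by
  obtain ⟨v, hv⟩ := h.exists_hasEigenvector
  have h1 : ∀ x, (T.kunneth X B).symm.toLinearMap (T.Fr (X * B) x) =
      TensorProduct.map (T.Fr X) (T.Fr B) ((T.kunneth X B).symm.toLinearMap x) :=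
    fun x => Fr_kun hT X B x
  have h2 : (T.kunneth X B).symm.toLinearMap.baseChange ℂ v ≠ 0 := by
    intro h0
    apply hv.2
    have h3 : (LinearMap.id : Module.End K (T.H (X * B))) =
        (T.kunneth X B).toLinearMap ∘ₗ (T.kunneth X B).symm.toLinearMap := by
      refine LinearMap.ext fun x => ?_
      simp
    have h4 : LinearMap.baseChange ℂ (LinearMap.id : Module.End K (T.H (X * B))) v = v := by
      rw [LinearMap.baseChange_id]
      rfl
    rw [← h4, h3, LinearMap.baseChange_comp, LinearMap.comp_apply, h0, map_zero]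
  have h5 : complexified (TensorProduct.map (T.Fr X) (T.Fr B))
      ((T.kunneth X B).symm.toLinearMap.baseChange ℂ v) =
        γ • ((T.kunneth X B).symm.toLinearMap.baseChange ℂ v) := by
    rw [← bc_comm h1, hv.apply_eq_smul, map_smul]
  obtain ⟨α, β, h6, h7, h8⟩ := eig_tensor_bc (T.Fr X) (T.Fr B) (m := 1) (μ := γ) h2
    (by rw [pow_one]; exact h5)
  exact ⟨α, β, h6, h7, by rw [← h8, pow_one]⟩

end step

end Pool.Agent.U222.CR
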